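import Pool.Agent.helper85.PG.Spec2

/-!
# Small doubling and the Paley graph conjecture: module CVR (Ruzsa covering with disjointness)
-/

set_option autoImplicit false

namespace Pool.Agent.helper85.PG

open Module Pointwise

theorem CVR : CVR_stmt := by
  intro p _ A V hV
  classical
  set good : Finset (ZMod p) → Prop := fun X =>
    ∀ x ∈ X, ∀ x' ∈ X, ∀ v ∈ V, ∀ v' ∈ V, x + v = x' + v' → x = x' with hgood
  obtain ⟨X, hX, hmax⟩ := Finset.exists_max_image (A.powerset.filter good) Finset.card
    ⟨∅, by
      rw [Finset.mem_filter]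
      exact ⟨Finset.empty_mem_powerset A, fun x hx => absurd hx (Finset.notMem_empty x)⟩⟩
  rw [Finset.mem_filter, Finset.mem_powerset] at hX
  obtain ⟨hXA, hXg⟩ := hX
  refine ⟨X, hXA, hXg, ?_, ?_⟩
  · intro a ha
    by_cases haX : a ∈ X
    · obtain ⟨v, hv⟩ := hV
      exact ⟨a, haX, v, hv, v, hv, rfl⟩
    · have hng : ¬ good (insert a X) := by
        intro hg
        have h1 := hmax (insert a X) (by
          rw [Finset.mem_filter, Finset.mem_powerset]
          exact ⟨Finset.insert_subset ha hXA, hg⟩)
        rw [Finset.card_insert_of_notMem haX] at h1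
        omega
      rw [hgood] at hng
      push Not at hng
      obtain ⟨x, hx, x', hx', v, hv, v', hv', he, hne⟩ := hng
      rw [Finset.mem_insert] at hx hx'
      rcases hx with rfl | hx
      · rcases hx' with rfl | hx'
        · exact absurd rfl hne
        · exact ⟨x', hx', v, hv, v', hv', he⟩
      · rcases hx' with rfl | hx'
        · exact ⟨x, hx, v', hv', v, hv, he.symm⟩
        · exact absurd (hXg x hx x' hx' v hv v' hv' he) hne
  · rw [← Finset.card_product]
    refine Finset.card_le_card_of_injOn (fun z => z.1 + z.2) ?_ ?_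
    · intro z hz
      rw [Finset.mem_coe, Finset.mem_product] at hz
      exact Finset.add_mem_add (hXA hz.1) hz.2
    · rintro ⟨x, v⟩ hz ⟨x', v'⟩ hz' he
      rw [Finset.mem_coe, Finset.mem_product] at hz hz'
      have h1 : x + v = x' + v' := he
      have h2 : x = x' := hXg x hz.1 x' hz'.1 v hz.2 v' hz'.2 h1
      rw [h2] at h1 ⊢
      rw [add_left_cancel h1]

end Pool.Agent.helper85.PG
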